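import Mathlib

/-!
# The underlying directed graph does not determine a Young graph

The `(225, 79)` and the `(493, 316)` Young graphs have isomorphic underlying directed graphs
(fourteen nodes), but one even pivot node and three even pivot nodes respectively.
-/

namespace Pool.Agent.Results.MP_5fcb94_co.YoungPair

open Relation

/-- Nodes: `none` is the starting node `[[0, 0]]` and `some (r', r)` is the ordinary node
`[r', r]`. -/
abbrev Node := Option (ℕ × ℕ)

/-- The two entries of a node; the starting node counts as `(0, 0)`. -/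
def entries : Node → ℕ × ℕ
  | none => (0, 0)
  | some p => p

/-- There is an edge labelled `(b, a)` from the node `x = [r', r]` to the ordinary node `[t, s]`:
`a` and `b` are digits (not zero if `x` is the starting node), `k * a + r` is congruent to `b`
modulo `g`, `s = (k * a + r - b) / g`, and `t = a + r' * g - k * b` satisfies `0 ≤ t < k`. -/
def Edge (g k : ℕ) (x : Node) (t s b a : ℕ) : Prop :=
  a < g ∧ b < g ∧ (x = none → 1 ≤ a ∧ 1 ≤ b) ∧
    k * a + (entries x).2 = b + g * s ∧ a + (entries x).1 * g = k * b + t ∧ t < k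

/-- There is an edge from `x` to `y`. -/
def Adj (g k : ℕ) (x y : Node) : Prop := ∃ t s b a, Edge g k x t s b a ∧ y = some (t, s)

/-- The nodes of the graph `H(g, k)`: those which can be reached from the starting node. -/
def InH (g k : ℕ) (x : Node) : Prop := ReflTransGen (Adj g k) none x

/-- The even pivot nodes: the ordinary nodes `[r, r]`. -/
def EvenPivot (g k : ℕ) (x : Node) : Prop := InH g k x ∧ ∃ r, x = some (r, r)

/-- The odd pivot nodes: the ordinary nodes `[r, r]` with a loop, and the ordinary nodes `[r', r]`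
with `r' ≠ r` and an edge to `[r, r']`. -/
def OddPivot (g k : ℕ) (x : Node) : Prop :=
  InH g k x ∧ ((∃ r, x = some (r, r) ∧ Adj g k x x) ∨
    ∃ r' r, r' ≠ r ∧ x = some (r', r) ∧ Adj g k x (some (r, r')))

/-- The pivot nodes. -/
def Pivot (g k : ℕ) (x : Node) : Prop := EvenPivot g k x ∨ OddPivot g k x

/-- The `(g, k)` Young graph exists: there is a pivot node other than `[0, 0]`. -/
def YoungExists (g k : ℕ) : Prop := ∃ x, Pivot g k x ∧ x ≠ some (0, 0)

/-- The nodes of the `(g, k)` Young graph: the nodes of `H(g, k)` from which a pivot node can be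
reached. -/
def YoungNode (g k : ℕ) : Type :=
  {x : Node // InH g k x ∧ ∃ y, ReflTransGen (Adj g k) x y ∧ Pivot g k y}

/-- `e` is an isomorphism of the underlying directed graphs of the `(g, k)` Young graph and the
`(g', k')` Young graph. -/
def IsDigraphIso {g k g' k' : ℕ} (e : YoungNode g k ≃ YoungNode g' k') : Prop :=
  ∀ x y, Adj g k x.1 y.1 ↔ Adj g' k' (e x).1 (e y).1

/-- `e` is an isomorphism of Young graphs: moreover it maps the even pivot nodes onto the even
pivot nodes and the odd pivot nodes onto the odd pivot nodes. -/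
def IsYoungIso {g k g' k' : ℕ} (e : YoungNode g k ≃ YoungNode g' k') : Prop :=
  IsDigraphIso e ∧ (∀ x, EvenPivot g k x.1 ↔ EvenPivot g' k' (e x).1) ∧
    (∀ x, OddPivot g k x.1 ↔ OddPivot g' k' (e x).1)

/-- The list of the targets of the edges which leave a node. -/
def outs (g k : ℕ) (x : Node) : List (ℕ × ℕ) :=
  (List.range g).filterMap fun a =>
    if (x.isSome || (Nat.ble 1 a && Nat.ble 1 ((k * a + (entries x).2) % g))) &&
        (Nat.ble (k * ((k * a + (entries x).2) % g)) (a + (entries x).1 * g) &&
        Nat.ble (a + (entries x).1 * g - k * ((k * a + (entries x).2) % g) + 1) k)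
    then some (a + (entries x).1 * g - k * ((k * a + (entries x).2) % g),
      (k * a + (entries x).2) / g)
    else none

lemma adj_iff {g k : ℕ} (x y : Node) : Adj g k x y ↔ ∃ p ∈ outs g k x, y = some p := by
  constructor
  · rintro ⟨t, s, b, a, ⟨ha, hb, h0, h1, h2, h3⟩, rfl⟩
    refine ⟨(t, s), ?_, rfl⟩
    have hg : 0 < g := by omega
    have hb' : (k * a + (entries x).2) % g = b := by
      rw [h1, Nat.add_mul_mod_self_left, Nat.mod_eq_of_lt hb]
    have hs : (k * a + (entries x).2) / g = s := by
      rw [h1, Nat.add_mul_div_left _ _ hg, Nat.div_eq_of_lt hb, zero_add]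
    simp only [outs, List.mem_filterMap, List.mem_range]
    refine ⟨a, ha, ?_⟩
    rw [hb', hs]
    have ht : a + (entries x).1 * g - k * b = t := by omega
    rw [ht, if_pos]
    simp only [Bool.and_eq_true, Bool.or_eq_true, Nat.ble_eq]
    refine ⟨?_, by omega, by omega⟩
    cases x with
    | none => exact Or.inr (h0 rfl)
    | some p => exact Or.inl rfl
  · rintro ⟨⟨t, s⟩, h, rfl⟩
    simp only [outs, List.mem_filterMap, List.mem_range] at h
    obtain ⟨a, ha, h⟩ := h
    split_ifs at h with h1
    simp only [Option.some.injEq, Prod.mk.injEq] at h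
    simp only [Bool.and_eq_true, Bool.or_eq_true, Nat.ble_eq] at h1
    obtain ⟨h1, h2, h3⟩ := h1
    obtain ⟨h4, h5⟩ := h
    have hg : 0 < g := by omega
    refine ⟨t, s, (k * a + (entries x).2) % g, a, ⟨ha, Nat.mod_lt _ hg, ?_, ?_, by omega,
      by omega⟩, rfl⟩
    · intro hx
      subst hx
      simpa using h1
    · rw [← h5, Nat.mod_add_div]

/-- The test for an odd pivot node. -/
def oddTest (g k : ℕ) (x : Node) : Bool :=
  match x with
  | none => false
  | some (r', r) => decide ((r, r') ∈ outs g k (some (r', r)))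

/-- The test for an even pivot node. -/
def evenTest (x : Node) : Bool :=
  match x with
  | none => false
  | some (r', r) => decide (r' = r)

lemma evenPivot_iff {g k : ℕ} (x : Node) : EvenPivot g k x ↔ InH g k x ∧ evenTest x = true := by
  unfold EvenPivot
  apply and_congr_right
  intro _
  rcases x with _ | ⟨r', r⟩
  · simp [evenTest]
  · simp [evenTest, eq_comm]

lemma oddPivot_iff {g k : ℕ} (x : Node) :
    OddPivot g k x ↔ InH g k x ∧ oddTest g k x = true := by
  unfold OddPivot
  apply and_congr_right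
  intro _
  rcases x with _ | ⟨r', r⟩
  · simp [oddTest]
  · simp only [oddTest, decide_eq_true_eq]
    constructor
    · rintro (⟨q, h1, h2⟩ | ⟨q', q, h1, h2, h3⟩)
      · obtain ⟨p, hp, h3⟩ := (adj_iff _ _).1 h2
        simp only [Option.some.injEq, Prod.mk.injEq] at h1 h3
        rw [← h3] at hp
        obtain ⟨h4, h5⟩ := h1
        subst h4
        subst h5
        exact hp
      · obtain ⟨p, hp, h4⟩ := (adj_iff _ _).1 h3
        simp only [Option.some.injEq, Prod.mk.injEq] at h2 h4
        obtain ⟨h5, h6⟩ := h2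
        subst h5
        subst h6
        rw [h4]
        exact hp
    · intro h
      by_cases h1 : r' = r
      · left
        subst h1
        exact ⟨r', rfl, (adj_iff _ _).2 ⟨_, h, rfl⟩⟩
      · right
        exact ⟨r', r, h1, rfl, (adj_iff _ _).2 ⟨_, h, rfl⟩⟩

/-- A certificate for the set of nodes of a Young graph. -/
lemma young_iff {g k n : ℕ} (N : Fin (n + 1) → Node) (S : List Node) (h0 : N 0 = none)
    (hN : ∀ i, ∀ p ∈ outs g k (N i), (∃ j, some p = N j) ∨ some p ∈ S)
    (hS : ∀ x ∈ S, ∀ p ∈ outs g k x, some p ∈ S)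
    (hS' : ∀ x ∈ S, evenTest x = false ∧ oddTest g k x = false)
    (hreach : ∀ i : Fin (n + 1), i ≠ 0 → ∃ j < i, ∃ p ∈ outs g k (N j), N i = some p)
    (hfin : ∀ i : Fin (n + 1), i ≠ Fin.last n → ∃ j > i, ∃ p ∈ outs g k (N i), N j = some p)
    (hlast : evenTest (N (Fin.last n)) = true) (x : Node) :
    (InH g k x ∧ ∃ y, ReflTransGen (Adj g k) x y ∧ Pivot g k y) ↔ ∃ i, N i = x := by
  have hin : ∀ m : ℕ, ∀ i : Fin (n + 1), (i : ℕ) ≤ m → InH g k (N i) := by
    intro m
    induction m with
    | zero =>
      intro i hi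
      have : i = 0 := Fin.ext (by simpa using hi)
      rw [this, h0]
      exact ReflTransGen.refl
    | succ m ih =>
      intro i hi
      by_cases h : i = 0
      · rw [h, h0]
        exact ReflTransGen.refl
      · obtain ⟨j, hj, p, hp, hp'⟩ := hreach i h
        exact ReflTransGen.tail (ih j (by have := Fin.lt_def.1 hj; omega))
          ((adj_iff _ _).2 ⟨p, hp, hp'⟩)
  have hin' : ∀ i, InH g k (N i) := fun i => hin i i le_rfl
  have hout : ∀ m : ℕ, ∀ i : Fin (n + 1), n - (i : ℕ) ≤ m →
      ReflTransGen (Adj g k) (N i) (N (Fin.last n)) := by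
    intro m
    induction m with
    | zero =>
      intro i hi
      have : i = Fin.last n := Fin.ext (by have := i.2; simp only [Fin.val_last]; omega)
      rw [this]
    | succ m ih =>
      intro i hi
      by_cases h : i = Fin.last n
      · rw [h]
      · obtain ⟨j, hj, p, hp, hp'⟩ := hfin i h
        refine ReflTransGen.head ((adj_iff _ _).2 ⟨p, hp, hp'⟩) (ih j ?_)
        have h1 := Fin.lt_def.1 hj
        have h2 := j.2
        omega
  have hall : ∀ y, InH g k y → (∃ j, y = N j) ∨ y ∈ S := by
    intro y hy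
    induction hy with
    | refl => exact Or.inl ⟨0, h0.symm⟩
    | tail _ h ih =>
      obtain ⟨p, hp, rfl⟩ := (adj_iff _ _).1 h
      rcases ih with ⟨j, rfl⟩ | ih
      · exact hN j p hp
      · exact Or.inr (hS _ ih p hp)
  constructor
  · rintro ⟨hx, y, hxy, hy⟩
    rcases hall x hx with ⟨j, rfl⟩ | h
    · exact ⟨j, rfl⟩
    · exfalso
      have hyS : y ∈ S := by
        clear hy
        induction hxy with
        | refl => exact h
        | tail _ h2 ih =>
          obtain ⟨p, hp, rfl⟩ := (adj_iff _ _).1 h2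
          exact hS _ ih p hp
      have h3 := hS' y hyS
      rcases hy with hy | hy
      · rw [evenPivot_iff, h3.1] at hy
        exact Bool.false_ne_true hy.2
      · rw [oddPivot_iff, h3.2] at hy
        exact Bool.false_ne_true hy.2
  · rintro ⟨i, rfl⟩
    refine ⟨hin' i, N (Fin.last n), hout _ i le_rfl, Or.inl ?_⟩
    rw [evenPivot_iff]
    exact ⟨hin' _, hlast⟩

/-- The nodes of the `(225, 79)` Young graph. -/
def N₁ : Fin 14 → Node :=
  ![none, some (30, 66), some (36, 28), some (51, 61), some (38, 26), some (56, 40), some (76, 20),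
    some (20, 76), some (40, 56), some (26, 38), some (61, 51), some (28, 36), some (66, 30),
    some (0, 0)]

/-- The other nodes of `H(225, 79)`. -/
def S₁ : List Node :=
  [some (15, 33), some (18, 14), some (33, 47), some (53, 59), some (41, 7), some (71, 73),
    some (2, 62), some (5, 43), some (8, 24), some (23, 57), some (25, 23), some (11, 5),
    some (41, 71), some (28, 4), some (43, 37), some (58, 70), some (46, 18), some (10, 22),
    some (25, 55), some (13, 3), some (43, 69), some (31, 17), some (46, 50), some (48, 16),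
    some (63, 49), some (69, 11)]

/-- The nodes of the `(493, 316)` Young graph. -/
def N₂ : Fin 14 → Node :=
  ![none, some (138, 291), some (100, 4), some (238, 295), some (130, 283), some (230, 287),
    some (104, 104), some (96, 96), some (283, 130), some (287, 230), some (4, 100),
    some (295, 238), some (291, 138), some (0, 0)]

lemma young₁ (x : Node) : (InH 225 79 x ∧ ∃ y, ReflTransGen (Adj 225 79) x y ∧ Pivot 225 79 y)
    ↔ ∃ i, N₁ i = x :=
  young_iff N₁ S₁ rfl (by decide +kernel) (by decide +kernel) (by decide +kernel)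
    (by decide +kernel) (by decide +kernel) (by decide +kernel) x

lemma young₂ (x : Node) :
    (InH 493 316 x ∧ ∃ y, ReflTransGen (Adj 493 316) x y ∧ Pivot 493 316 y) ↔ ∃ i, N₂ i = x :=
  young_iff N₂ [] rfl (by decide +kernel) (by decide +kernel) (by decide +kernel)
    (by decide +kernel) (by decide +kernel) (by decide +kernel) x

lemma inj₁ : ∀ i j, N₁ i = N₁ j → i = j := by decide +kernel

lemma inj₂ : ∀ i j, N₂ i = N₂ j → i = j := by decide +kernel

lemma same_adj : ∀ i j, (∃ p ∈ outs 225 79 (N₁ i), N₁ j = some p) ↔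
    (∃ p ∈ outs 493 316 (N₂ i), N₂ j = some p) := by decide +kernel

lemma even₁ : ∀ i, evenTest (N₁ i) = true → i = 13 := by decide +kernel

/-- The numbering of the nodes of the first Young graph. -/
noncomputable def num₁ : Fin 14 ≃ YoungNode 225 79 :=
  Equiv.ofBijective (fun i => ⟨N₁ i, (young₁ _).2 ⟨i, rfl⟩⟩)
    ⟨fun i j h => inj₁ i j (congrArg Subtype.val h), fun x => by
      obtain ⟨i, hi⟩ := (young₁ x.1).1 x.2
      exact ⟨i, Subtype.ext hi⟩⟩

/-- The numbering of the nodes of the second Young graph. -/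
noncomputable def num₂ : Fin 14 ≃ YoungNode 493 316 :=
  Equiv.ofBijective (fun i => ⟨N₂ i, (young₂ _).2 ⟨i, rfl⟩⟩)
    ⟨fun i j h => inj₂ i j (congrArg Subtype.val h), fun x => by
      obtain ⟨i, hi⟩ := (young₂ x.1).1 x.2
      exact ⟨i, Subtype.ext hi⟩⟩

lemma num₁_val (i : Fin 14) : (num₁ i).1 = N₁ i := rfl

lemma num₂_val (i : Fin 14) : (num₂ i).1 = N₂ i := rfl

lemma exists_iso : ∃ e : YoungNode 225 79 ≃ YoungNode 493 316, IsDigraphIso e := by
  refine ⟨num₁.symm.trans num₂, ?_⟩
  intro x y
  obtain ⟨i, rfl⟩ := num₁.surjective x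
  obtain ⟨j, rfl⟩ := num₁.surjective y
  simp only [Equiv.trans_apply, Equiv.symm_apply_apply, num₁_val, num₂_val, adj_iff]
  exact same_adj i j

lemma exists₁ : YoungExists 225 79 := by
  refine ⟨N₁ 12, Or.inr ?_, by decide +kernel⟩
  rw [oddPivot_iff]
  exact ⟨((young₁ _).2 ⟨12, rfl⟩).1, by decide +kernel⟩

lemma even₂ (i : Fin 14) (h : evenTest (N₂ i) = true) : EvenPivot 493 316 (N₂ i) :=
  (evenPivot_iff _).2 ⟨((young₂ _).2 ⟨i, rfl⟩).1, h⟩

lemma exists₂ : YoungExists 493 316 :=
  ⟨N₂ 6, Or.inl (even₂ 6 (by decide +kernel)), by decide +kernel⟩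

lemma even₁_unique (x y : YoungNode 225 79) (hx : EvenPivot 225 79 x.1)
    (hy : EvenPivot 225 79 y.1) : x = y := by
  obtain ⟨i, rfl⟩ := num₁.surjective x
  obtain ⟨j, rfl⟩ := num₁.surjective y
  rw [num₁_val, evenPivot_iff] at hx hy
  rw [even₁ i hx.2, even₁ j hy.2]

lemma not_iso : ¬ ∃ e : YoungNode 225 79 ≃ YoungNode 493 316, IsYoungIso e := by
  rintro ⟨e, -, he, -⟩
  have h1 : e (e.symm (num₂ 6)) = num₂ 6 := e.apply_symm_apply _
  have h2 : e (e.symm (num₂ 7)) = num₂ 7 := e.apply_symm_apply _
  have h := even₁_unique (e.symm (num₂ 6)) (e.symm (num₂ 7))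
    ((he _).2 (by rw [h1]; exact even₂ 6 (by decide +kernel)))
    ((he _).2 (by rw [h2]; exact even₂ 7 (by decide +kernel)))
  have h3 := num₂.injective (e.symm.injective h)
  revert h3
  decide

/-- There are two pairs whose Young graphs exist and have isomorphic underlying directed graphs,
but are not isomorphic as Young graphs. -/
theorem result : ∃ g k g' k' : ℕ, 3 ≤ g ∧ 2 ≤ k ∧ k < g ∧ 3 ≤ g' ∧ 2 ≤ k' ∧ k' < g' ∧
    (g, k) ≠ (g', k') ∧ YoungExists g k ∧ YoungExists g' k' ∧
    (∃ e : YoungNode g k ≃ YoungNode g' k', IsDigraphIso e) ∧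
    ¬ ∃ e : YoungNode g k ≃ YoungNode g' k', IsYoungIso e :=
  ⟨225, 79, 493, 316, by norm_num, by norm_num, by norm_num, by norm_num, by norm_num,
    by norm_num, by simp, exists₁, exists₂, exists_iso, not_iso⟩

end Pool.Agent.Results.MP_5fcb94_co.YoungPair
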